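import Pool.Agent.QPI.StmtsD

set_option autoImplicit false

/-!
# Squad QPI, row D_EXB: bound for the Gaussian expectation of an integer polynomial
-/

namespace Pool.Agent.QPI.H30

open MvPolynomial Pool.Agent.QPI

theorem dm_le (a : ℕ) : dm a ≤ a.factorial := by
  unfold dm
  split_ifs
  · exact (Nat.doubleFactorial_le_factorial _).trans (Nat.factorial_le (Nat.sub_le _ _))
  · exact Nat.zero_le _

/-- D_EXB -/
theorem exb : ExbStmt := by
  intro κ _ _ p L d hp hd
  have hb : ∀ α ∈ p.support, ∏ i, dm (α i) ≤ d.factorial := by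
    intro α hα
    calc ∏ i, dm (α i) ≤ ∏ i, (α i).factorial := Finset.prod_le_prod' fun i _ => dm_le (α i)
      _ ≤ (∑ i, α i).factorial :=
        Nat.le_of_dvd (Nat.factorial_pos _) (Nat.prod_factorial_dvd_factorial_sum _ _)
      _ ≤ d.factorial := Nat.factorial_le (by rw [← Finsupp.degree_eq_sum]; exact hd α hα)
  choose z hz using hp.1
  refine ⟨∑ α ∈ p.support, z α * ∏ i, (dm (α i) : ℤ), ?_, ?_⟩
  · unfold Ex
    push_cast
    exact Finset.sum_congr rfl fun α _ => by rw [hz]
  · have h1 : (∑ α ∈ p.support, |z α|) ≤ (L : ℤ) := by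
      have h3 : ((∑ α ∈ p.support, |z α| : ℤ) : ℚ) ≤ ((L : ℤ) : ℚ) := by
        push_cast
        calc _ = ∑ α ∈ p.support, |p.coeff α| := Finset.sum_congr rfl fun α _ => by rw [hz]
          _ ≤ _ := hp.2
      exact_mod_cast h3
    calc |∑ α ∈ p.support, z α * ∏ i, (dm (α i) : ℤ)|
        ≤ ∑ α ∈ p.support, |z α * ∏ i, (dm (α i) : ℤ)| := Finset.abs_sum_le_sum_abs _ _
      _ ≤ ∑ α ∈ p.support, |z α| * (d.factorial : ℤ) := by
          refine Finset.sum_le_sum fun α hα => ?_
          rw [abs_mul]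
          refine mul_le_mul_of_nonneg_left ?_ (abs_nonneg _)
          rw [abs_of_nonneg (Finset.prod_nonneg fun i _ => Int.natCast_nonneg _)]
          exact_mod_cast hb α hα
      _ = (∑ α ∈ p.support, |z α|) * (d.factorial : ℤ) := (Finset.sum_mul _ _ _).symm
      _ ≤ L * d.factorial := mul_le_mul_of_nonneg_right h1 (Int.natCast_nonneg _)

end Pool.Agent.QPI.H30
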